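import Pool.Agent.W544.PG.Defs3

set_option autoImplicit false

open Matrix Finset Module

namespace Pool.Agent.W892.KS
open Pool.Agent.W544.PG

noncomputable section

variable {q : ℕ}

/-- raising operator -/
def Yp (i : Fin q) : Matrix (I 1 q) (I 1 q) ℂ := fun a b =>
  match a, b with
  | Sum.inr (Sum.inl j), Sum.inl _ => if j = i then 1 else 0
  | Sum.inr (Sum.inr _), Sum.inr (Sum.inl j) => if j = i then -1 else 0
  | _, _ => 0

/-- lowering operator -/
def Ym (i : Fin q) : Matrix (I 1 q) (I 1 q) ℂ := fun a b =>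
  match a, b with
  | Sum.inr (Sum.inl j), Sum.inr (Sum.inr _) => if j = i then 1 else 0
  | Sum.inl _, Sum.inr (Sum.inl j) => if j = i then -1 else 0
  | _, _ => 0

lemma Yp_skew (i : Fin q) : (Yp i)ᵀ * B0 1 q + B0 1 q * Yp i = 0 := by
  have h0 : ∀ a : Fin 1, a = 0 := fun a => Subsingleton.elim _ _
  ext a b
  rcases a with a | a | a <;> rcases b with b | b | b <;>
    simp [Matrix.mul_apply, Yp, B0, Matrix.one_apply, Matrix.transpose_apply, h0] <;>
    (split_ifs <;> simp)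

lemma Ym_skew (i : Fin q) : (Ym i)ᵀ * B0 1 q + B0 1 q * Ym i = 0 := by
  have h0 : ∀ a : Fin 1, a = 0 := fun a => Subsingleton.elim _ _
  ext a b
  rcases a with a | a | a <;> rcases b with b | b | b <;>
    simp [Matrix.mul_apply, Ym, B0, Matrix.one_apply, Matrix.transpose_apply, h0] <;>
    (split_ifs <;> simp)

/-- derivation given by the grading element -/
def DD (N : Matrix (I 1 q) (I 1 q) ℂ) : Matrix (I 1 q) (I 1 q) ℂ := (x0 1 q)ᵀ * N + N * x0 1 q

lemma DD_ll (N : Matrix (I 1 q) (I 1 q) ℂ) :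
    DD N (Sum.inl 0) (Sum.inl 0) = 2 * N (Sum.inl 0) (Sum.inl 0) := by
  simp [DD, Matrix.mul_apply, x0, big0, Matrix.one_apply]
  ring

lemma DD_rr (N : Matrix (I 1 q) (I 1 q) ℂ) :
    DD N (Sum.inr (Sum.inr 0)) (Sum.inr (Sum.inr 0)) =
      -2 * N (Sum.inr (Sum.inr 0)) (Sum.inr (Sum.inr 0)) := by
  simp [DD, Matrix.mul_apply, x0, big0, Matrix.one_apply]
  ring

theorem core (P : Set (Matrix (I 1 q) (I 1 q) ℂ)) (hsym : ∀ N ∈ P, Nᵀ = N)
    (hcl : ∀ N ∈ P, ∀ Y : Matrix (I 1 q) (I 1 q) ℂ, Yᵀ * B0 1 q + B0 1 q * Y = 0 →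
      Yᵀ * N + N * Y ∈ P)
    (hD : ∀ N ∈ P, DD (DD (DD N)) = DD N) :
    ∀ N ∈ P, N = N (Sum.inr (Sum.inr 0)) (Sum.inl 0) • B0 1 q := by
  have s1 : ∀ N ∈ P, ∀ a b, N a b = N b a := by
    intro N hN a b
    have := congrFun (congrFun (hsym N hN) b) a
    simpa [Matrix.transpose_apply] using this
  have a1 : ∀ N ∈ P, N (Sum.inl 0) (Sum.inl 0) = 0 := by
    intro N hN
    have h := congrFun (congrFun (hD N hN) (Sum.inl 0)) (Sum.inl 0)
    rw [DD_ll, DD_ll, DD_ll] at h
    linear_combination (1 / 6 : ℂ) * h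
  have a2 : ∀ N ∈ P, N (Sum.inr (Sum.inr 0)) (Sum.inr (Sum.inr 0)) = 0 := by
    intro N hN
    have h := congrFun (congrFun (hD N hN) (Sum.inr (Sum.inr 0))) (Sum.inr (Sum.inr 0))
    rw [DD_rr, DD_rr, DD_rr] at h
    linear_combination (-1 / 6 : ℂ) * h
  have a3 : ∀ N ∈ P, ∀ i : Fin q, N (Sum.inr (Sum.inl i)) (Sum.inl 0) = 0 := by
    intro N hN i
    have h := a1 _ (hcl N hN (Yp i) (Yp_skew i))
    simp [Matrix.mul_apply, Yp] at h
    rw [s1 N hN (Sum.inl 0)] at h
    linear_combination (1 / 2 : ℂ) * h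
  have a4 : ∀ N ∈ P, ∀ i : Fin q, N (Sum.inr (Sum.inl i)) (Sum.inr (Sum.inr 0)) = 0 := by
    intro N hN i
    have h := a2 _ (hcl N hN (Ym i) (Ym_skew i))
    simp [Matrix.mul_apply, Ym] at h
    rw [s1 N hN (Sum.inr (Sum.inr 0))] at h
    linear_combination (1 / 2 : ℂ) * h
  have a5 : ∀ N ∈ P, ∀ i j : Fin q, N (Sum.inr (Sum.inl i)) (Sum.inr (Sum.inl j)) =
      if i = j then N (Sum.inr (Sum.inr 0)) (Sum.inl 0) else 0 := by
    intro N hN i j
    have h := a3 _ (hcl N hN (Yp j) (Yp_skew j)) i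
    simp [Matrix.mul_apply, Yp] at h
    split_ifs with hij
    · simp [hij] at h
      subst hij
      linear_combination h
    · simp [hij] at h
      exact h
  intro N hN
  ext a b
  rcases a with a | a | a <;> rcases b with b | b | b
  · have ha : a = 0 := Subsingleton.elim _ _
    have hb : b = 0 := Subsingleton.elim _ _
    subst ha; subst hb
    simp [a1 N hN, B0]
  · have ha : a = 0 := Subsingleton.elim _ _
    subst ha
    rw [s1 N hN, a3 N hN]
    simp [B0]
  · have ha : a = 0 := Subsingleton.elim _ _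
    have hb : b = 0 := Subsingleton.elim _ _
    subst ha; subst hb
    rw [s1 N hN]
    simp [B0]
  · have hb : b = 0 := Subsingleton.elim _ _
    subst hb
    rw [a3 N hN]
    simp [B0]
  · rw [a5 N hN]
    simp [B0, Matrix.one_apply]
  · have hb : b = 0 := Subsingleton.elim _ _
    subst hb
    rw [a4 N hN]
    simp [B0]
  · have ha : a = 0 := Subsingleton.elim _ _
    have hb : b = 0 := Subsingleton.elim _ _
    subst ha; subst hb
    simp [B0]
  · have ha : a = 0 := Subsingleton.elim _ _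
    subst ha
    rw [s1 N hN, a4 N hN]
    simp [B0]
  · have ha : a = 0 := Subsingleton.elim _ _
    have hb : b = 0 := Subsingleton.elim _ _
    subst ha; subst hb
    simp [a2 N hN, B0]

end

end Pool.Agent.W892.KS
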