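import Pool.Agent.W488.KS.Stm
import Pool.Agent.W544.PG.Final
import Pool.Agent.W377.PG.G0
import Pool.Agent.W927.PG.Coord
import Pool.Agent.W892.KS.Core

set_option autoImplicit false

open Matrix Finset Module

namespace Pool.Agent.W892.KS
open Pool.Agent.W544.PG

noncomputable section

variable {n : ℕ}

/-- a bilinear form as a matrix -/
def mat (s : (Fin 2 → Fin n) → ℂ) : Matrix (Fin n) (Fin n) ℂ := fun i j => s ![i, j]

lemma mat_act (y : Matrix (Fin n) (Fin n) ℂ) (s : (Fin 2 → Fin n) → ℂ) :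
    mat (act y s) = yᵀ * mat s + mat s * y := by
  have u0 : ∀ i j l : Fin n, Function.update ![i, j] 0 l = ![l, j] := by
    intro i j l
    funext k
    fin_cases k <;> simp
  have u1 : ∀ i j l : Fin n, Function.update ![i, j] 1 l = ![i, l] := by
    intro i j l
    funext k
    fin_cases k <;> simp
  ext i j
  simp only [mat, act, Fin.sum_univ_two, Matrix.cons_val_zero, Matrix.cons_val_one, u0, u1,
    Matrix.add_apply, Matrix.mul_apply, Matrix.transpose_apply]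
  congr 1
  apply Finset.sum_congr rfl
  intro l _
  ring

section gen
variable {m w : Type*} [Fintype m] [DecidableEq m] [Fintype w] [DecidableEq w]

lemma conj_act (g : Matrix w m ℂ) (k : Matrix m w ℂ) (hkg : k * g = 1)
    (Y : Matrix m m ℂ) (M : Matrix w w ℂ) :
    gᵀ * ((g * Y * k)ᵀ * M + M * (g * Y * k)) * g =
      Yᵀ * (gᵀ * M * g) + (gᵀ * M * g) * Y := by
  have hkgT : gᵀ * kᵀ = 1 := by rw [← Matrix.transpose_mul, hkg, Matrix.transpose_one]
  have e1 : gᵀ * ((g * Y * k)ᵀ * M) * g = Yᵀ * (gᵀ * M * g) := by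
    rw [Matrix.transpose_mul, Matrix.transpose_mul]
    calc gᵀ * (kᵀ * (Yᵀ * gᵀ) * M) * g = (gᵀ * kᵀ) * (Yᵀ * (gᵀ * M * g)) := by
          simp only [Matrix.mul_assoc]
      _ = Yᵀ * (gᵀ * M * g) := by rw [hkgT, Matrix.one_mul]
  have e2 : gᵀ * (M * (g * Y * k)) * g = (gᵀ * M * g) * Y := by
    calc gᵀ * (M * (g * Y * k)) * g = gᵀ * M * g * Y * (k * g) := by
          simp only [Matrix.mul_assoc]
      _ = (gᵀ * M * g) * Y := by rw [hkg, Matrix.mul_one]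
  rw [Matrix.mul_add, Matrix.add_mul, e1, e2]

lemma conj_back (g : Matrix w m ℂ) (k : Matrix m w ℂ) (hgk : g * k = 1) (M : Matrix w w ℂ) :
    kᵀ * (gᵀ * M * g) * k = M := by
  have hgkT : kᵀ * gᵀ = 1 := by rw [← Matrix.transpose_mul, hgk, Matrix.transpose_one]
  calc kᵀ * (gᵀ * M * g) * k = (kᵀ * gᵀ) * M * (g * k) := by simp only [Matrix.mul_assoc]
    _ = M := by rw [hgk, hgkT, Matrix.one_mul, Matrix.mul_one]

lemma conj_skew (g : Matrix w m ℂ) (k : Matrix m w ℂ) (hkg : k * g = 1) (hgk : g * k = 1)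
    (Y : Matrix m m ℂ) (M : Matrix w w ℂ) (B : Matrix m m ℂ) (hB : gᵀ * M * g = B)
    (hY : Yᵀ * B + B * Y = 0) : (g * Y * k)ᵀ * M + M * (g * Y * k) = 0 := by
  have h := conj_back g k hgk ((g * Y * k)ᵀ * M + M * (g * Y * k))
  rw [conj_act g k hkg Y M, hB, hY, Matrix.mul_zero, Matrix.zero_mul] at h
  exact h.symm

lemma conj_x (g : Matrix w m ℂ) (X : Matrix w w ℂ) (X0 : Matrix m m ℂ) (hX : X * g = g * X0)
    (M : Matrix w w ℂ) :
    gᵀ * (Xᵀ * M + M * X) * g = X0ᵀ * (gᵀ * M * g) + (gᵀ * M * g) * X0 := by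
  have h1 : gᵀ * Xᵀ = X0ᵀ * gᵀ := by
    rw [← Matrix.transpose_mul, hX, Matrix.transpose_mul]
  have e1 : gᵀ * (Xᵀ * M) * g = X0ᵀ * (gᵀ * M * g) := by
    calc gᵀ * (Xᵀ * M) * g = (gᵀ * Xᵀ) * M * g := by simp only [Matrix.mul_assoc]
      _ = X0ᵀ * (gᵀ * M * g) := by rw [h1]; simp only [Matrix.mul_assoc]
  have e2 : gᵀ * (M * X) * g = (gᵀ * M * g) * X0 := by
    calc gᵀ * (M * X) * g = gᵀ * M * (X * g) := by simp only [Matrix.mul_assoc]
      _ = (gᵀ * M * g) * X0 := by rw [hX]; simp only [Matrix.mul_assoc]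
  rw [Matrix.mul_add, Matrix.add_mul, e1, e2]

end gen

/-- the complex step -/
theorem cstep (q : ℕ) (V : Set ((Fin 2 → Fin n) → ℂ)) (Q : Matrix (Fin n) (Fin n) ℂ)
    (x : Matrix (Fin n) (Fin n) ℂ)
    (hsymC : ∀ s ∈ V, (mat s)ᵀ = mat s)
    (hst : ∀ Z : Matrix (Fin n) (Fin n) ℂ, Zᵀ * Q + Q * Z = 0 → ∀ s ∈ V, act Z s ∈ V)
    (hcub : ∀ s ∈ V, act x (act x (act x s)) = act x s)
    (g : Matrix (Fin n) (I 1 q) ℂ) (k : Matrix (I 1 q) (Fin n) ℂ)
    (hkg : k * g = 1) (hgk : g * k = 1) (hg1 : gᵀ * Q * g = B0 1 q) (hg4 : x * g = g * x0 1 q) :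
    ∀ s ∈ V, ∃ c : ℂ, mat s = c • Q := by
  have hfin := core {N : Matrix (I 1 q) (I 1 q) ℂ | ∃ s ∈ V, gᵀ * mat s * g = N}
    (by
      rintro N ⟨s, hs, hN⟩
      rw [← hN, Matrix.transpose_mul, Matrix.transpose_mul, Matrix.transpose_transpose,
        hsymC s hs, Matrix.mul_assoc])
    (by
      rintro N ⟨s, hs, hN⟩ Y hY
      refine ⟨act (g * Y * k) s, hst _ (conj_skew g k hkg hgk Y Q (B0 1 q) hg1 hY) s hs, ?_⟩
      rw [mat_act, conj_act g k hkg, hN])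
    (by
      rintro N ⟨s, hs, hN⟩
      have h1 : mat (act x (act x (act x s))) = mat (act x s) := by rw [hcub s hs]
      rw [mat_act, mat_act, mat_act] at h1
      have h2 : gᵀ * (xᵀ * (xᵀ * (xᵀ * mat s + mat s * x) + (xᵀ * mat s + mat s * x) * x) +
          (xᵀ * (xᵀ * mat s + mat s * x) + (xᵀ * mat s + mat s * x) * x) * x) * g =
          gᵀ * (xᵀ * mat s + mat s * x) * g := by rw [h1]
      rw [conj_x g x (x0 1 q) hg4, conj_x g x (x0 1 q) hg4, conj_x g x (x0 1 q) hg4, hN] at h2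
      exact h2)
  intro s hs
  have h := hfin _ ⟨s, hs, rfl⟩
  refine ⟨(gᵀ * mat s * g) (Sum.inr (Sum.inr 0)) (Sum.inl 0), ?_⟩
  have hb := conj_back g k hgk (mat s)
  rw [h, ← hg1, Matrix.mul_smul, Matrix.smul_mul, conj_back g k hgk Q] at hb
  exact hb.symm


theorem gcr : Pool.Agent.W488.KS.S_gcr := by
  intro n T hn hsc htr R hsub hsymm hcub r hr
  obtain ⟨q, rfl⟩ : ∃ q, n = 2 * 1 + q := ⟨n - 2, by omega⟩
  have htr' : (T.x * T.x).trace = 2 * ((1 : ℕ) : ℂ) := by rw [htr]; simp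
  have hT := mainTF (2 * 1 + q) 1 q T hsc htr' rfl one_pos (Or.inl rfl)
  have hst := Pool.Agent.W377.PG.g0 (2 * 1 + q) 2 T hT R hsub
  obtain ⟨g, hg1, hg2, hg3, hg4⟩ := Pool.Agent.W927.PG.coord (2 * 1 + q) 1 q T htr' rfl
  have hsymC : ∀ s ∈ cspan R, (mat s)ᵀ = mat s := by
    intro s hs
    refine Submodule.span_induction (p := fun s _ => (mat s)ᵀ = mat s) ?_ ?_ ?_ ?_ hs
    · rintro s ⟨t, ht, rfl⟩
      ext i j
      simp only [Matrix.transpose_apply, mat, cx]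
      rw [hsymm t ht j i]
    · ext i j
      simp [mat]
    · intro s t _ _ h1 h2
      have : mat (s + t) = mat s + mat t := rfl
      rw [this, Matrix.transpose_add, h1, h2]
    · intro c s _ h1
      have : mat (c • s) = c • mat s := rfl
      rw [this, Matrix.transpose_smul, h1]
  obtain ⟨c, hM⟩ := cstep q (cspan R : Set _) (mC T.Q) T.x hsymC hst hcub g (gᴴ * T.H)
    hg2 hg3 hg1 hg4 (cx r) (Submodule.subset_span ⟨r, hr, rfl⟩)
  have hent : ∀ i j, ((r ![i, j] : ℚ) : ℂ) = c * ((T.Q i j : ℚ) : ℂ) := by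
    intro i j
    have := congrFun (congrFun hM i) j
    simpa [mat, cx, mC, Matrix.smul_apply] using this
  by_cases hQ : ∃ i j, T.Q i j ≠ 0
  · obtain ⟨i0, j0, h0⟩ := hQ
    refine ⟨r ![i0, j0] / T.Q i0 j0, fun i j => ?_⟩
    have h0' : ((T.Q i0 j0 : ℚ) : ℂ) ≠ 0 := by exact_mod_cast h0
    have hcc : c = ((r ![i0, j0] / T.Q i0 j0 : ℚ) : ℂ) := by
      rw [Rat.cast_div, hent i0 j0]
      field_simp
    have := hent i j
    rw [hcc] at this
    exact_mod_cast this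
  · push Not at hQ
    refine ⟨0, fun i j => ?_⟩
    have := hent i j
    rw [hQ i j] at this
    simp at this
    rw [this]
    simp

end

end Pool.Agent.W892.KS
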